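import Pool.Agent.Y444.TM.Fin

set_option autoImplicit false

/-! Q1, answered negatively: there is a Hausdorff totally minimal topological group, solvable of
derived length at most three, which has countable tightness and is not metrizable.

The group is the `Σ`-product of the compact groups `N_b = N`, `b ∈ ℤ_3`, extended by
`(ℚ_3/ℤ_3)² ⋊ ℤ_3ˣ`, where `N` is the group of all functions `f : ℚ_3/ℤ_3 → ℤ/2` with sum zero on
every coset of the subgroup of order three, `ℤ_3ˣ` acts on `ℚ_3/ℤ_3` by multiplication, and
`(x, y) ∈ (ℚ_3/ℤ_3)²` acts on `N_b` as the translation by `x + b y`. -/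

open Filter Topology

namespace Pool.Agent.Results.MP_a4feb0_gt.TightNotMetrizable

/-- `G` is minimal: there is no strictly coarser Hausdorff group topology. -/
def Minimal (G : Type) [Group G] [τ : TopologicalSpace G] : Prop :=
  ∀ σ : TopologicalSpace G, τ ≤ σ → @IsTopologicalGroup G σ _ → @T2Space G σ → σ = τ

/-- `G` is totally minimal: every quotient by a closed normal subgroup is minimal. -/
def TotallyMinimal (G : Type) [Group G] [TopologicalSpace G] [IsTopologicalGroup G] : Prop :=
  ∀ N : Subgroup G, [N.Normal] → IsClosed (N : Set G) → Minimal (G ⧸ N)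

/-- `X` has countable tightness: a point in the closure of `A` is in the closure of a countable
subset of `A`. -/
def CountablyTight (X : Type) [TopologicalSpace X] : Prop :=
  ∀ A : Set X, ∀ x ∈ closure A, ∃ B ⊆ A, B.Countable ∧ x ∈ closure B

/-- There is a Hausdorff topological group which is totally minimal, solvable (of derived length at
most three) and of countable tightness, but not metrizable. -/
theorem result : ∃ (G : Type) (_ : Group G) (_ : TopologicalSpace G) (_ : IsTopologicalGroup G),
    T2Space G ∧ TotallyMinimal G ∧ derivedSeries G 3 = ⊥ ∧ CountablyTight G ∧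
      ¬ TopologicalSpace.MetrizableSpace G := by
  refine ⟨Pool.Agent.Y444.TM.G, inferInstance, inferInstance, inferInstance, inferInstance, ?_,
    Pool.Agent.Y444.TM.G.solvable, ?_, Pool.Agent.Y444.TM.G.not_metrizable⟩
  · intro N _ _ σ hσ hg h2
    exact Pool.Agent.Y444.TM.G.minimal_quotient N σ hσ hg h2
  · intro A x hx
    exact Pool.Agent.Y444.TM.G.tight A x hx

end Pool.Agent.Results.MP_a4feb0_gt.TightNotMetrizable
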